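import Pool.Agent.W42.RG.Defs

set_option autoImplicit false

/-!
# Project LX: expanded, bounded and contracted parts of a vector
-/

namespace Pool.Agent.W490.LX

open Filter Topology Pool.Agent.W42.RG

section Norm

variable {E : Type} [NormedAddCommGroup E] [NormedSpace ℂ E]

theorem growth (A : Module.End ℂ E) (μ : ℂ) (hμ : μ ≠ 0) : ∀ (k : ℕ) (u : E),
    ((A - μ • (1 : Module.End ℂ E)) ^ k) u = 0 →
    ∃ C : ℝ, 0 ≤ C ∧ ∀ n : ℕ, ‖(A ^ n) u‖ ≤ C * ((n : ℝ) + 1) ^ k * ‖μ‖ ^ n := by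
  intro k
  induction k with
  | zero =>
    intro u hu
    rw [pow_zero, Module.End.one_apply] at hu
    exact ⟨0, le_rfl, fun n => by simp [hu]⟩
  | succ k ih =>
    intro u hu
    rw [pow_succ, Module.End.mul_apply] at hu
    obtain ⟨C, hC, h⟩ := ih _ hu
    have hμ' : 0 < ‖μ‖ := norm_pos_iff.2 hμ
    refine ⟨‖u‖ + C / ‖μ‖, by positivity, fun n => ?_⟩
    induction n with
    | zero =>
      have : 0 ≤ C / ‖μ‖ := by positivity
      simp
      exact this
    | succ n ihn =>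
      have e : (A ^ (n + 1)) u = μ • (A ^ n) u + (A ^ n) ((A - μ • (1 : Module.End ℂ E)) u) := by
        rw [LinearMap.sub_apply, map_sub, LinearMap.smul_apply, map_smul, pow_succ,
          Module.End.mul_apply, Module.End.one_apply]
        abel
      have h1 := h n
      have h2 : (1 : ℝ) ≤ (n : ℝ) + 1 := by
        have : (0 : ℝ) ≤ n := Nat.cast_nonneg n
        linarith
      have h3 : 0 ≤ C / ‖μ‖ := by positivity
      rw [e]
      calc ‖μ • (A ^ n) u + (A ^ n) ((A - μ • (1 : Module.End ℂ E)) u)‖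
          ≤ ‖μ‖ * ‖(A ^ n) u‖ + ‖(A ^ n) ((A - μ • (1 : Module.End ℂ E)) u)‖ := by
            refine (norm_add_le _ _).trans ?_
            rw [norm_smul]
        _ ≤ ‖μ‖ * ((‖u‖ + C / ‖μ‖) * ((n : ℝ) + 1) ^ (k + 1) * ‖μ‖ ^ n) +
            C * ((n : ℝ) + 1) ^ k * ‖μ‖ ^ n := by gcongr
        _ = ((‖u‖ + C / ‖μ‖) * ((n : ℝ) + 1) ^ (k + 1) + C / ‖μ‖ * ((n : ℝ) + 1) ^ k) *
            ‖μ‖ ^ (n + 1) := by
            field_simp
            ring
        _ ≤ ((‖u‖ + C / ‖μ‖) * ((n : ℝ) + 1) ^ (k + 1) +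
            (‖u‖ + C / ‖μ‖) * ((n : ℝ) + 1) ^ k) * ‖μ‖ ^ (n + 1) := by
            gcongr
            have := norm_nonneg u
            linarith
        _ = (‖u‖ + C / ‖μ‖) * (((n : ℝ) + 1) ^ k * ((n : ℝ) + 1 + 1)) * ‖μ‖ ^ (n + 1) := by
            ring
        _ ≤ (‖u‖ + C / ‖μ‖) * (((n : ℝ) + 1 + 1) ^ k * ((n : ℝ) + 1 + 1)) * ‖μ‖ ^ (n + 1) := by
            gcongr
            linarith
        _ = (‖u‖ + C / ‖μ‖) * (((n + 1 : ℕ) : ℝ) + 1) ^ (k + 1) * ‖μ‖ ^ (n + 1) := by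
            push_cast; ring

/-- exponentially contracted vectors -/
def expS (A : Module.End ℂ E) : Submodule ℂ E where
  carrier := {u | ∃ r : ℝ, 1 < r ∧ Tendsto (fun n : ℕ => r ^ n * ‖(A ^ n) u‖) atTop (𝓝 0)}
  add_mem' := by
    rintro u v ⟨r, hr, hu⟩ ⟨s, hs, hv⟩
    refine ⟨min r s, lt_min hr hs, ?_⟩
    have h := hu.add hv
    rw [add_zero] at h
    refine squeeze_zero (fun n => by positivity) (fun n => ?_) h
    have h0 : (0 : ℝ) ≤ min r s := le_min (by linarith) (by linarith)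
    have h1 : (min r s) ^ n ≤ r ^ n := pow_le_pow_left₀ h0 (min_le_left _ _) n
    have h2 : (min r s) ^ n ≤ s ^ n := pow_le_pow_left₀ h0 (min_le_right _ _) n
    rw [map_add]
    calc (min r s) ^ n * ‖(A ^ n) u + (A ^ n) v‖
        ≤ (min r s) ^ n * (‖(A ^ n) u‖ + ‖(A ^ n) v‖) := by
          have := norm_add_le ((A ^ n) u) ((A ^ n) v)
          gcongr
      _ = (min r s) ^ n * ‖(A ^ n) u‖ + (min r s) ^ n * ‖(A ^ n) v‖ := by ring
      _ ≤ r ^ n * ‖(A ^ n) u‖ + s ^ n * ‖(A ^ n) v‖ := by gcongr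
  zero_mem' := ⟨2, by norm_num, by simp⟩
  smul_mem' := by
    rintro c u ⟨r, hr, hu⟩
    refine ⟨r, hr, ?_⟩
    have h := hu.const_mul ‖c‖
    rw [mul_zero] at h
    refine h.congr fun n => ?_
    rw [map_smul, norm_smul]
    ring

/-- polynomially bounded vectors -/
def polS (A : Module.End ℂ E) : Submodule ℂ E where
  carrier := {u | ∃ d : ℕ, Tendsto (fun n : ℕ => (((n : ℝ) + 1) ^ d)⁻¹ * ‖(A ^ n) u‖) atTop (𝓝 0)}
  add_mem' := by
    rintro u v ⟨r, hu⟩ ⟨s, hv⟩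
    refine ⟨max r s, ?_⟩
    have h := hu.add hv
    rw [add_zero] at h
    refine squeeze_zero (fun n => by positivity) (fun n => ?_) h
    have h0 : (1 : ℝ) ≤ (n : ℝ) + 1 := by
      have : (0 : ℝ) ≤ n := Nat.cast_nonneg n
      linarith
    have h1 : (((n : ℝ) + 1) ^ max r s)⁻¹ ≤ (((n : ℝ) + 1) ^ r)⁻¹ :=
      inv_anti₀ (by positivity) (pow_le_pow_right₀ h0 (le_max_left _ _))
    have h2 : (((n : ℝ) + 1) ^ max r s)⁻¹ ≤ (((n : ℝ) + 1) ^ s)⁻¹ :=
      inv_anti₀ (by positivity) (pow_le_pow_right₀ h0 (le_max_right _ _))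
    rw [map_add]
    calc (((n : ℝ) + 1) ^ max r s)⁻¹ * ‖(A ^ n) u + (A ^ n) v‖
        ≤ (((n : ℝ) + 1) ^ max r s)⁻¹ * (‖(A ^ n) u‖ + ‖(A ^ n) v‖) := by
          have := norm_add_le ((A ^ n) u) ((A ^ n) v)
          gcongr
      _ = (((n : ℝ) + 1) ^ max r s)⁻¹ * ‖(A ^ n) u‖ +
          (((n : ℝ) + 1) ^ max r s)⁻¹ * ‖(A ^ n) v‖ := by ring
      _ ≤ (((n : ℝ) + 1) ^ r)⁻¹ * ‖(A ^ n) u‖ + (((n : ℝ) + 1) ^ s)⁻¹ * ‖(A ^ n) v‖ := by
          gcongr
  zero_mem' := ⟨0, by simp⟩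
  smul_mem' := by
    rintro c u ⟨r, hu⟩
    refine ⟨r, ?_⟩
    have h := hu.const_mul ‖c‖
    rw [mul_zero] at h
    refine h.congr fun n => ?_
    rw [map_smul, norm_smul]
    ring

theorem mem_expS_of {A : Module.End ℂ E} {μ : ℂ} (hμ : μ ≠ 0) (h1 : ‖μ‖ < 1) {k : ℕ} {u : E}
    (hu : ((A - μ • (1 : Module.End ℂ E)) ^ k) u = 0) : u ∈ expS A := by
  obtain ⟨C, hC, h⟩ := growth A μ hμ k u hu
  have hμ' : 0 < ‖μ‖ := norm_pos_iff.2 hμ
  obtain ⟨r, hr1, hr2⟩ := exists_between ((one_lt_inv₀ hμ').2 h1)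
  have hr0 : 0 < r := by linarith
  have hq : r * ‖μ‖ < 1 := by
    rwa [lt_inv_comm₀ hr0 hμ', ← one_div, lt_div_iff₀ hr0, mul_comm] at hr2
  have hq0 : 0 < r * ‖μ‖ := by positivity
  refine ⟨r, hr1, ?_⟩
  have t1 := tendsto_pow_const_mul_const_pow_of_abs_lt_one k (r := r * ‖μ‖)
    (by rw [abs_of_pos hq0]; exact hq)
  have t2 := ((tendsto_add_atTop_iff_nat 1).2 t1).const_mul (C * (r * ‖μ‖)⁻¹)
  rw [mul_zero] at t2
  refine squeeze_zero (fun n => by positivity) (fun n => ?_) t2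
  calc r ^ n * ‖(A ^ n) u‖ ≤ r ^ n * (C * ((n : ℝ) + 1) ^ k * ‖μ‖ ^ n) := by
        have := h n
        gcongr
    _ = C * (r * ‖μ‖)⁻¹ * (((n + 1 : ℕ) : ℝ) ^ k * (r * ‖μ‖) ^ (n + 1)) := by
        push_cast
        field_simp
        ring

theorem mem_polS_of {A : Module.End ℂ E} {μ : ℂ} (hμ : μ ≠ 0) (h1 : ‖μ‖ = 1) {k : ℕ} {u : E}
    (hu : ((A - μ • (1 : Module.End ℂ E)) ^ k) u = 0) : u ∈ polS A := by
  obtain ⟨C, hC, h⟩ := growth A μ hμ k u hu
  refine ⟨k + 1, ?_⟩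
  have t2 := (tendsto_one_div_add_atTop_nhds_zero_nat (𝕜 := ℝ)).const_mul C
  rw [mul_zero] at t2
  refine squeeze_zero (fun n => by positivity) (fun n => ?_) t2
  calc (((n : ℝ) + 1) ^ (k + 1))⁻¹ * ‖(A ^ n) u‖
      ≤ (((n : ℝ) + 1) ^ (k + 1))⁻¹ * (C * ((n : ℝ) + 1) ^ k * ‖μ‖ ^ n) := by
        have := h n
        gcongr
    _ = C * (1 / ((n : ℝ) + 1)) := by
        rw [h1, one_pow]
        field_simp
        ring

theorem inv_eig {A B : Module.End ℂ E} (hAB : A * B = 1) (hBA : B * A = 1) {μ : ℂ} (hμ : μ ≠ 0)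
    {k : ℕ} {u : E} (hu : ((A - μ • (1 : Module.End ℂ E)) ^ k) u = 0) :
    ((B - μ⁻¹ • (1 : Module.End ℂ E)) ^ k) u = 0 := by
  have e : B - μ⁻¹ • (1 : Module.End ℂ E) = (-μ⁻¹ • B) * (A - μ • (1 : Module.End ℂ E)) := by
    rw [mul_sub, smul_mul_assoc, hBA, mul_smul_comm, mul_one, smul_smul, mul_neg,
      mul_inv_cancel₀ hμ, neg_smul, neg_smul, one_smul]
    abel
  have hc : Commute (-μ⁻¹ • B) (A - μ • (1 : Module.End ℂ E)) := by
    refine Commute.smul_left ?_ _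
    refine Commute.sub_right ?_ ?_
    · exact hBA.trans hAB.symm
    · exact (Commute.one_right B).smul_right μ
  rw [e, hc.mul_pow, Module.End.mul_apply, hu, map_zero]

theorem decomp [FiniteDimensional ℂ E] (A B : Module.End ℂ E) (hAB : A * B = 1)
    (hBA : B * A = 1) (u : E) :
    ∃ u1 u2 u3 : E, u = u1 + u2 + u3 ∧ u1 ∈ expS B ∧ u3 ∈ expS A ∧ u2 ∈ polS A ∧ u2 ∈ polS B := by
  have htop : (⊤ : Submodule ℂ E) ≤ expS B ⊔ (polS A ⊓ polS B) ⊔ expS A := by
    rw [← Module.End.iSup_maxGenEigenspace_eq_top A]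
    refine iSup_le fun μ => ?_
    intro v hv
    rw [Module.End.mem_maxGenEigenspace] at hv
    obtain ⟨k, hk⟩ := hv
    by_cases hμ : μ = 0
    · have hc : Commute B A := hBA.trans hAB.symm
      have h0 : v = 0 := by
        have h1 : (B ^ k * A ^ k) v = v := by
          rw [← hc.mul_pow, hBA, one_pow, Module.End.one_apply]
        rw [hμ, zero_smul, sub_zero] at hk
        rw [← h1, Module.End.mul_apply, hk, map_zero]
      rw [h0]
      exact Submodule.zero_mem _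
    · rcases lt_trichotomy ‖μ‖ 1 with h | h | h
      · exact (le_sup_right : expS A ≤ _) (mem_expS_of hμ h hk)
      · refine (le_sup_left : expS B ⊔ (polS A ⊓ polS B) ≤ _)
          ((le_sup_right : polS A ⊓ polS B ≤ _) ⟨mem_polS_of hμ h hk, ?_⟩)
        exact mem_polS_of (inv_ne_zero hμ) (by rw [norm_inv, h, inv_one]) (inv_eig hAB hBA hμ hk)
      · refine (le_sup_left : expS B ⊔ (polS A ⊓ polS B) ≤ _)
          ((le_sup_left : expS B ≤ _) ?_)
        refine mem_expS_of (inv_ne_zero hμ) ?_ (inv_eig hAB hBA hμ hk)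
        rw [norm_inv]
        exact inv_lt_one_of_one_lt₀ h
  obtain ⟨w, hw, u3, hu3, h1⟩ := Submodule.mem_sup.1 (htop (Submodule.mem_top : u ∈ ⊤))
  obtain ⟨u1, hu1, u2, hu2, h2⟩ := Submodule.mem_sup.1 hw
  exact ⟨u1, u2, u3, by rw [h2, h1], hu1, hu3, hu2.1, hu2.2⟩

end Norm

/-! ### Complexification -/

section Cx

variable {n : ℕ}

/-- real parts -/
def re (u : Fin n → ℂ) : Fin n → ℝ := fun i => (u i).re

/-- imaginary parts -/
def im (u : Fin n → ℂ) : Fin n → ℝ := fun i => (u i).im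

theorem re_add (u v : Fin n → ℂ) : re (u + v) = re u + re v := rfl

theorem im_add (u v : Fin n → ℂ) : im (u + v) = im u + im v := rfl

theorem re_smul (z : ℂ) (u : Fin n → ℂ) : re (z • u) = z.re • re u - z.im • im u := by
  funext i
  simp [re, im]

theorem im_smul (z : ℂ) (u : Fin n → ℂ) : im (z • u) = z.re • im u + z.im • re u := by
  funext i
  simp [re, im]

/-- extension of a real endomorphism -/
def cx (B : Module.End ℝ (Fin n → ℝ)) : Module.End ℂ (Fin n → ℂ) where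
  toFun u := fun i => ⟨B (re u) i, B (im u) i⟩
  map_add' u v := by
    funext i
    rw [re_add, im_add, map_add, map_add]
    rfl
  map_smul' z u := by
    funext i
    rw [re_smul, im_smul, map_sub, map_add, map_smul, map_smul, map_smul, map_smul]
    apply Complex.ext
    · simp
    · simp

theorem re_cx (B : Module.End ℝ (Fin n → ℝ)) (u : Fin n → ℂ) : re (cx B u) = B (re u) := rfl

theorem im_cx (B : Module.End ℝ (Fin n → ℝ)) (u : Fin n → ℂ) : im (cx B u) = B (im u) := rfl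

theorem cx_mul (B C : Module.End ℝ (Fin n → ℝ)) : cx B * cx C = cx (B * C) := rfl

theorem cx_one : cx (1 : Module.End ℝ (Fin n → ℝ)) = 1 := rfl

theorem re_pow (B : Module.End ℝ (Fin n → ℝ)) (u : Fin n → ℂ) (m : ℕ) :
    re ((cx B ^ m) u) = (B ^ m) (re u) := by
  induction m with
  | zero => rfl
  | succ m ih => rw [pow_succ', Module.End.mul_apply, re_cx, ih, pow_succ', Module.End.mul_apply]

end Cx

/-- **LA** -/
theorem t_LA : S_LA := by
  intro V _ _ _ _ _ _ _ A Y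
  classical
  set n := Module.finrank ℝ V with hn
  set e : V ≃ₗ[ℝ] (Fin n → ℝ) := (Module.finBasis ℝ V).equivFun with he
  have hecont : Continuous e.symm :=
    LinearMap.continuous_of_finiteDimensional (e.symm : (Fin n → ℝ) →ₗ[ℝ] V)
  set M : Module.End ℝ (Fin n → ℝ) := (e : V →ₗ[ℝ] _) ∘ₗ (A : V →ₗ[ℝ] V) ∘ₗ
    (e.symm : (Fin n → ℝ) →ₗ[ℝ] V) with hM
  set M' : Module.End ℝ (Fin n → ℝ) := (e : V →ₗ[ℝ] _) ∘ₗ (A.symm : V →ₗ[ℝ] V) ∘ₗ
    (e.symm : (Fin n → ℝ) →ₗ[ℝ] V) with hM'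
  have h1 : M * M' = 1 := by
    refine LinearMap.ext fun x => ?_
    simp [hM, hM', Module.End.mul_apply]
  have h2 : M' * M = 1 := by
    refine LinearMap.ext fun x => ?_
    simp [hM, hM', Module.End.mul_apply]
  have k1 : ∀ (m : ℕ) (x : Fin n → ℝ), A^[m] (e.symm x) = e.symm ((M ^ m) x) := by
    intro m
    induction m with
    | zero => intro x; rfl
    | succ m ih =>
      intro x
      rw [Function.iterate_succ_apply', ih, pow_succ', Module.End.mul_apply]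
      simp [hM]
  have k2 : ∀ (m : ℕ) (x : Fin n → ℝ), A.symm^[m] (e.symm x) = e.symm ((M' ^ m) x) := by
    intro m
    induction m with
    | zero => intro x; rfl
    | succ m ih =>
      intro x
      rw [Function.iterate_succ_apply', ih, pow_succ', Module.End.mul_apply]
      simp [hM']
  obtain ⟨u1, u2, u3, hu, hu1, hu3, ⟨d, hd⟩, ⟨d', hd'⟩⟩ := decomp (cx M) (cx M')
    (by rw [cx_mul, h1, cx_one]) (by rw [cx_mul, h2, cx_one]) (fun i => ((e Y i : ℝ) : ℂ))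
  -- transfer of limits
  have tr : ∀ (c : ℕ → ℝ) (N : Module.End ℝ (Fin n → ℝ)) (u : Fin n → ℂ), (∀ m, 0 ≤ c m) →
      Tendsto (fun m => c m * ‖(cx N ^ m) u‖) atTop (𝓝 0) →
      Tendsto (fun m => c m • e.symm ((N ^ m) (re u))) atTop (𝓝 0) := by
    intro c N u hc ht
    have t1 : Tendsto (fun m => c m • (N ^ m) (re u)) atTop (𝓝 0) := by
      rw [tendsto_zero_iff_norm_tendsto_zero]
      refine squeeze_zero (fun m => norm_nonneg _) (fun m => ?_) ht
      rw [norm_smul, Real.norm_of_nonneg (hc m)]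
      refine mul_le_mul_of_nonneg_left ?_ (hc m)
      rw [← re_pow]
      refine (pi_norm_le_iff_of_nonneg (norm_nonneg _)).2 fun i => ?_
      exact (Complex.abs_re_le_norm _).trans (norm_le_pi_norm _ i)
    have t2 := (hecont.tendsto 0).comp t1
    rw [map_zero] at t2
    refine t2.congr fun m => ?_
    simp
  obtain ⟨r1, hr1, t1⟩ := hu1
  obtain ⟨r3, hr3, t3⟩ := hu3
  refine ⟨e.symm (re u1), e.symm (re u2), e.symm (re u3), ?_, ?_, ?_, max d d', ?_, ?_⟩
  · rw [← map_add, ← map_add, ← re_add, ← re_add, ← hu]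
    have : re (fun i => ((e Y i : ℝ) : ℂ)) = e Y := rfl
    rw [this, LinearEquiv.symm_apply_apply]
  · refine ⟨r1, hr1, ?_⟩
    refine (tr (fun m => r1 ^ m) M' u1 (fun m => by positivity) t1).congr fun m => ?_
    rw [k2]
  · refine ⟨r3, hr3, ?_⟩
    refine (tr (fun m => r3 ^ m) M u3 (fun m => by positivity) t3).congr fun m => ?_
    rw [k1]
  · refine (tr (fun m => (((m : ℝ) + 1) ^ max d d')⁻¹) M u2 (fun m => by positivity) ?_).congr
      fun m => by rw [k1]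
    refine squeeze_zero (fun m => by positivity) (fun m => ?_) hd
    have h0 : (1 : ℝ) ≤ (m : ℝ) + 1 := by
      have : (0 : ℝ) ≤ m := Nat.cast_nonneg m
      linarith
    exact mul_le_mul_of_nonneg_right (inv_anti₀ (by positivity)
      (pow_le_pow_right₀ h0 (le_max_left _ _))) (norm_nonneg _)
  · refine (tr (fun m => (((m : ℝ) + 1) ^ max d d')⁻¹) M' u2 (fun m => by positivity) ?_).congr
      fun m => by rw [k2]
    refine squeeze_zero (fun m => by positivity) (fun m => ?_) hd'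
    have h0 : (1 : ℝ) ≤ (m : ℝ) + 1 := by
      have : (0 : ℝ) ≤ m := Nat.cast_nonneg m
      linarith
    exact mul_le_mul_of_nonneg_right (inv_anti₀ (by positivity)
      (pow_le_pow_right₀ h0 (le_max_right _ _))) (norm_nonneg _)

end Pool.Agent.W490.LX
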